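import Pool.Agent.Helper67.DF.Stmts

/-!
Project DF: row CHG, averages do not change under a linear change of variables.
-/

open Finset MeasureTheory

namespace Pool.Agent.Helper67.DF

open Pool.Agent.Helper67.BT (E PG Sp wt)

theorem chg_J {n k : ℕ} (a a' : Fin n → E k) (U : Fin n → ℝ → ℝ) (T : E k ≃ₗ[ℝ] E k)
    (h : ∀ l x, inner ℝ (a' l) x = inner ℝ (a l) (T x)) (F : E k → ℝ) :
    J a' U (fun x => F (T x)) =
      |(LinearMap.det (T : E k →ₗ[ℝ] E k))⁻¹| * J a U F := by
  have hV : ∀ x, VV a' U x = VV a U (T x) := fun x => by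
    unfold VV
    exact Finset.sum_congr rfl fun l _ => by rw [h l x]
  have hdet : LinearMap.det (T : E k →ₗ[ℝ] E k) ≠ 0 := (LinearEquiv.isUnit_det' T).ne_zero
  have hmap := Measure.map_linearMap_addHaar_eq_smul_addHaar (volume : Measure (E k)) hdet
  have hemb : MeasurableEmbedding (T : E k → E k) :=
    T.toContinuousLinearEquiv.toHomeomorph.measurableEmbedding
  unfold J
  have h1 : (∫ x, F (T x) * Real.exp (-(VV a' U x))) =
      ∫ y, F y * Real.exp (-(VV a U y)) ∂(Measure.map (T : E k → E k) volume) := by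
    rw [hemb.integral_map]
    exact integral_congr_ae (Filter.Eventually.of_forall fun x => by
      simp only
      rw [hV x])
  rw [h1]
  have h2 : Measure.map (T : E k → E k) volume =
      ENNReal.ofReal |(LinearMap.det (T : E k →ₗ[ℝ] E k))⁻¹| • (volume : Measure (E k)) := hmap
  rw [h2, integral_smul_measure, ENNReal.toReal_ofReal (abs_nonneg _), smul_eq_mul]

/-- CHG. -/
theorem st_CHG : ST_CHG := by
  intro n k a a' U T h F
  have hdet : LinearMap.det (T : E k →ₗ[ℝ] E k) ≠ 0 := (LinearEquiv.isUnit_det' T).ne_zero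
  have h0 : |(LinearMap.det (T : E k →ₗ[ℝ] E k))⁻¹| ≠ 0 := abs_ne_zero.2 (inv_ne_zero hdet)
  unfold Av
  rw [chg_J a a' U T h F, chg_J a a' U T h (fun _ => 1), mul_div_mul_left _ _ h0]

end Pool.Agent.Helper67.DF
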