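import Pool.Agent.Helper67.DF.Stmts
import Pool.Agent.Helper25.BT.FIN
import Pool.Agent.Helper86.LP.Section

/-!
Project DF: row FIN, log-concavity of the section function for every exponent up to `11/5`.
-/

open Finset MeasureTheory Module

namespace Pool.Agent.Helper67.DF

open Pool.Agent.Helper86.LP
open Pool.Agent.Helper67.BT (E PG Sp wt)

theorem fin_top (hSEC : ST_SEC) {n : ℕ} (H : Submodule ℝ (EuclideanSpace ℝ (Fin n))) :
    IsLogConcave (sectionVolume (11 / 5) H) := by
  obtain ⟨L, a, hL, hsp⟩ := Pool.Agent.Helper67.BT.fin_basis H (k := finrank ℝ H) rfl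
  have hq : (1 : ℝ) ≤ 11 / 5 := by norm_num
  have hpos : ∀ τ, 0 < (Phi (11 / 5) H τ).toReal := fun τ =>
    ENNReal.toReal_pos (Phi_ne_zero H τ) (Phi_ne_top H hq τ)
  rw [isLogConcave_iff hq]
  intro l m hl hm hlm x y
  have h1 := (hSEC n (finrank ℝ H) a y (fun i => x i - y i) hsp).2 (Set.mem_univ (1 : ℝ))
    (Set.mem_univ (0 : ℝ)) hl.le hm.le hlm
  simp only [← Pool.Agent.Helper67.BT.fin_Phi L a hL, smul_eq_mul, mul_one, mul_zero, add_zero,
    one_mul, zero_mul] at h1
  have e1 : (fun i => y i + (x i - y i)) = x := by funext i; ring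
  have e2 : (fun i => y i + l * (x i - y i)) = l • x + m • y := by
    funext i
    have hm' : m = 1 - l := by linarith
    simp only [Pi.add_apply, Pi.smul_apply, smul_eq_mul, hm']
    ring
  have e3 : (fun i => y i) = y := rfl
  rw [e1, e2] at h1
  rw [← ENNReal.toReal_le_toReal (ENNReal.mul_ne_top
      (ENNReal.rpow_ne_top_of_nonneg hl.le (Phi_ne_top H hq x))
      (ENNReal.rpow_ne_top_of_nonneg hm.le (Phi_ne_top H hq y))) (Phi_ne_top H hq _),
      ENNReal.toReal_mul, ← ENNReal.toReal_rpow, ← ENNReal.toReal_rpow,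
      ← Real.log_le_log_iff (mul_pos (Real.rpow_pos_of_pos (hpos _) _)
        (Real.rpow_pos_of_pos (hpos _) _)) (hpos _),
      Real.log_mul (Real.rpow_pos_of_pos (hpos _) _).ne' (Real.rpow_pos_of_pos (hpos _) _).ne',
      Real.log_rpow (hpos _), Real.log_rpow (hpos _)]
  exact h1

/-- FIN. -/
theorem st_FIN (hSEC : ST_SEC) : ST_FIN := by
  intro p hp hp2 n H
  rcases hp2.lt_or_eq with h | h
  · exact isLogConcave_of_lt hp h H (fin_top hSEC H)
  · rw [h]
    exact fin_top hSEC H

end Pool.Agent.Helper67.DF
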